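import Mathlib
import Pool.Agent.MP_e813d2_pr.Defs
import Pool.Agent.MP_e813d2_pr.Limit

set_option autoImplicit false

open MeasureTheory ProbabilityTheory
open Pool.Agent.MP_e813d2_pr

namespace Pool.Agent.Results.MP_e813d2_pr.ApproxCorrelation

/-- For every `ε > 0` there is `δ > 0` such that, for Bernoulli bond percolation on every
connected locally finite simple graph with arbitrary edge probabilities and every three distinct
vertices `a, b, c`, if `P(ab|c) < δ` then `P(abc) P(a|b|c) - P(ac|b) P(a|bc) < ε`. -/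
theorem result.{u} : ∀ ε : ℝ, 0 < ε → ∃ δ : ℝ, 0 < δ ∧
    ∀ (V : Type u) (G : SimpleGraph V) [G.LocallyFinite], G.Connected →
    ∀ a b c : V, a ≠ b → a ≠ c → b ≠ c → ∀ p : G.edgeSet → unitInterval,
      (perc G p).real (evPair G a b c) < δ →
      (perc G p).real (evABC G a b c) * (perc G p).real (evSep G a b c) -
        (perc G p).real (evPair G a c b) * (perc G p).real (evPair G b c a) < ε := by
  intro ε hε
  refine ⟨(ε / 45) ^ 2, by positivity, ?_⟩
  intro V G _ hG a b c _ _ _ p hδ
  classical
  have hq := quantitative hG a b c p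
  have mab := measurable_sameCluster hG a b
  have mac := measurable_sameCluster hG a c
  have mbc := measurable_sameCluster hG b c
  have hcomm : ∀ (ω : G.edgeSet → Bool) (x y : V), SameCluster G ω x y → SameCluster G ω y x :=
    fun ω x y h => sameCluster_comm.1 h
  have htr : ∀ (ω : G.edgeSet → Bool) (x y z : V), SameCluster G ω x y → SameCluster G ω y z →
    SameCluster G ω x z := fun ω x y z h h' => SimpleGraph.Reachable.trans h h'
  -- the events in terms of two connections
  have eABC : evABC G a b c = {ω | SameCluster G ω a c ∧ SameCluster G ω b c} := by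
    ext ω
    exact ⟨fun h => ⟨h.2.1, h.2.2⟩, fun h => ⟨htr _ _ _ _ h.1 (hcomm _ _ _ h.2), h.1, h.2⟩⟩
  have eab : evPair G a b c = {ω | SameCluster G ω a b ∧ ¬ SameCluster G ω b c} := by
    ext ω
    exact ⟨fun h => ⟨h.1, h.2.2⟩,
      fun h => ⟨h.1, fun h' => h.2 (htr _ _ _ _ (hcomm _ _ _ h.1) h'), h.2⟩⟩
  have eac : evPair G a c b = {ω | SameCluster G ω a c ∧ ¬ SameCluster G ω b c} := by
    ext ω
    exact ⟨fun h => ⟨h.1, fun h' => h.2.2 (hcomm _ _ _ h')⟩,
      fun h => ⟨h.1, fun h' => h.2 (htr _ _ _ _ (hcomm _ _ _ h') h.1),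
        fun h' => h.2 (hcomm _ _ _ h')⟩⟩
  have ebc : evPair G b c a = {ω | SameCluster G ω b c ∧ ¬ SameCluster G ω a c} := by
    ext ω
    exact ⟨fun h => ⟨h.1, fun h' => h.2.2 (hcomm _ _ _ h')⟩,
      fun h => ⟨h.1, fun h' => h.2 (htr _ _ _ _ (hcomm _ _ _ h') h.1),
        fun h' => h.2 (hcomm _ _ _ h')⟩⟩
  -- probabilities
  have h1 : (perc G p).real (evABC G a b c) + (perc G p).real (evPair G a c b) =
      (perc G p).real {ω | SameCluster G ω a c} := by
    rw [eABC, eac]
    exact measureReal_inter_add_sdiff (μ := perc G p) (s := {ω | SameCluster G ω a c}) mbc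
  have h2 : (perc G p).real (evABC G a b c) + (perc G p).real (evPair G b c a) =
      (perc G p).real {ω | SameCluster G ω b c} := by
    have e : evABC G a b c = {ω | SameCluster G ω b c ∧ SameCluster G ω a c} := by
      rw [eABC]; ext ω; exact and_comm
    rw [e, ebc]
    exact measureReal_inter_add_sdiff (μ := perc G p) (s := {ω | SameCluster G ω b c}) mac
  have h3 : (perc G p).real {ω | SameCluster G ω b c} +
      (perc G p).real {ω | ¬ SameCluster G ω b c} = 1 := by
    have := measureReal_inter_add_sdiff (μ := perc G p) (s := Set.univ) mbc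
    rw [Set.univ_inter, ← Set.compl_eq_univ_sdiff, probReal_univ] at this
    exact this
  have h4 : (perc G p).real (evPair G a c b) +
      (perc G p).real {ω | ¬ SameCluster G ω b c ∧ ¬ SameCluster G ω a c} =
      (perc G p).real {ω | ¬ SameCluster G ω b c} := by
    have e : evPair G a c b = {ω | ¬ SameCluster G ω b c ∧ SameCluster G ω a c} := by
      rw [eac]; ext ω; exact and_comm
    rw [e]
    exact measureReal_inter_add_sdiff (μ := perc G p) (s := {ω | ¬ SameCluster G ω b c}) mac
  have h5 : (perc G p).real (evPair G a b c) + (perc G p).real (evSep G a b c) =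
      (perc G p).real {ω | ¬ SameCluster G ω b c ∧ ¬ SameCluster G ω a c} := by
    have e : evPair G a b c = {ω | (¬ SameCluster G ω b c ∧ ¬ SameCluster G ω a c) ∧
        SameCluster G ω a b} := by
      ext ω
      exact ⟨fun h => ⟨⟨h.2.2, h.2.1⟩, h.1⟩, fun h => ⟨h.2, h.1.2, h.1.1⟩⟩
    have e' : evSep G a b c = {ω | (¬ SameCluster G ω b c ∧ ¬ SameCluster G ω a c) ∧
        ¬ SameCluster G ω a b} := by
      ext ω
      exact ⟨fun h => ⟨⟨h.2.2, h.2.1⟩, h.1⟩, fun h => ⟨h.2, h.1.2, h.1.1⟩⟩
    rw [e, e']
    exact measureReal_inter_add_sdiff (μ := perc G p)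
      (s := {ω | ¬ SameCluster G ω b c ∧ ¬ SameCluster G ω a c}) mab
  rw [← eABC, ← eab] at hq
  have hZ0 : 0 ≤ (perc G p).real (evPair G a b c) := measureReal_nonneg
  have hW0 : 0 ≤ (perc G p).real (evABC G a b c) := measureReal_nonneg
  have hsq : √((perc G p).real (evPair G a b c)) < ε / 45 := by
    rw [Real.sqrt_lt' (by positivity)]
    exact hδ
  generalize (perc G p).real (evPair G a b c) = Z at *
  generalize (perc G p).real (evABC G a b c) = W at *
  generalize (perc G p).real (evPair G a c b) = P1 at *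
  generalize (perc G p).real (evPair G b c a) = P2 at *
  generalize (perc G p).real (evSep G a b c) = R at *
  have hR : R = 1 - W - P1 - P2 - Z := by linarith
  have hid : W * R - P1 * P2 = W - (W + P1) * (W + P2) - W * Z := by rw [hR]; ring
  rw [hid, h1, h2]
  have hWZ := mul_nonneg hW0 hZ0
  linarith

end Pool.Agent.Results.MP_e813d2_pr.ApproxCorrelation
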